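import Pool.Agent.H656R2.SplitGame.NoA
import Pool.Agent.H656R2.SplitGame.NoB
import Pool.Agent.H656R2.SplitGame.Char

universe u

open Cardinal Pool.Agent.H656R2.SplitGame

/-- Let `E` be an uncountable set.  Player A has no winning strategy in `G(E)`.  Player B has a
winning strategy if and only if `E` carries a splitting system, and B has none
if `|E| ≤ 2^ℵ₀`; so `G(E)` is undetermined for `ℵ₁ ≤ |E| ≤ 2^ℵ₀`, and for every larger `E`
it is undetermined if and only if `E` carries no splitting system. -/
theorem Pool.Agent.Results.MP_c086f7_lc.Determination.result (E : Type u) [Uncountable E] :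
    ¬ AHasWinningStrategy E ∧
      (BHasWinningStrategy E ↔ HasSplittingSystem E) ∧
      (#E ≤ 𝔠 → ¬ BHasWinningStrategy E) :=
  ⟨not_AHasWinningStrategy E, bWins_iff, not_BHasWinningStrategy E⟩
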